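import Mathlib

open MeasureTheory Finset

set_option linter.unusedSectionVars false
set_option linter.unusedVariables false

namespace Pool.Agent.Helper37.RG

section Defs
variable {Om : Type*} {G : Type*}

/-- average over a finite family of maps -/
noncomputable def av (M : G → Om → Om) (K : ℕ) (u : ℕ → G) (f : Om → ℝ) : Om → ℝ :=
  fun x => (∑ a ∈ range K, f (M (u a) x)) / K

/-- `S_m ... S_(m+e-1) g` -/
noncomputable def Rr (M : G → Om → Om) (K : ℕ → ℕ) (u : ℕ → ℕ → G) :
    ℕ → ℕ → (Om → ℝ) → Om → ℝ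
  | 0, _, g => g
  | e + 1, m, g => av M (K m) (u m) (Rr M K u e (m + 1) g)

/-- `S_(m-1)^* ... S_0^* f` -/
noncomputable def Ts [Inv G] (M : G → Om → Om) (K : ℕ → ℕ) (u : ℕ → ℕ → G) :
    ℕ → (Om → ℝ) → Om → ℝ
  | 0, f => f
  | m + 1, f => av M (K m) (fun a => (u m a)⁻¹) (Ts M K u m f)

/-- the conditional probabilities of the backward maximal event -/
noncomputable def Wf [Inv G] (M : G → Om → Om) (K : ℕ → ℕ) (u : ℕ → ℕ → G) (f : Om → ℝ)
    (μ : ℝ) : ℕ → ℕ → Om → ℝ
  | 0, m => fun x => if μ < Ts M K u m f x then 1 else 0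
  | d + 1, m => fun x => if μ < Ts M K u m f x then 1
      else av M (K m) (u m) (Wf M K u f μ d (m + 1)) x

end Defs

section Basic
variable {Om : Type*} {G : Type*}

lemma av_nonneg (M : G → Om → Om) (K : ℕ) (u : ℕ → G) (f : Om → ℝ) (hf : ∀ x, 0 ≤ f x) (x : Om) :
    0 ≤ av M K u f x :=
  div_nonneg (sum_nonneg fun a _ => hf _) (Nat.cast_nonneg K)

lemma av_mono (M : G → Om → Om) (K : ℕ) (u : ℕ → G) (f g : Om → ℝ) (hfg : ∀ x, f x ≤ g x)
    (x : Om) : av M K u f x ≤ av M K u g x :=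
  div_le_div_of_nonneg_right (sum_le_sum fun a _ => hfg _) (Nat.cast_nonneg K)

lemma av_const_add (M : G → Om → Om) (K : ℕ) (hK : 0 < K) (u : ℕ → G) (c : ℝ) (f : Om → ℝ)
    (x : Om) : av M K u (fun y => c + f y) x = c + av M K u f x := by
  have h : (K : ℝ) ≠ 0 := by positivity
  simp only [av, sum_add_distrib, sum_const, card_range, nsmul_eq_mul]
  field_simp

lemma av_le_one (M : G → Om → Om) (K : ℕ) (hK : 0 < K) (u : ℕ → G) (f : Om → ℝ)
    (hf : ∀ x, f x ≤ 1) (x : Om) : av M K u f x ≤ 1 := by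
  have h : (0 : ℝ) < K := by exact_mod_cast hK
  rw [av, div_le_one h]
  calc ∑ a ∈ range K, f (M (u a) x) ≤ ∑ a ∈ range K, (1 : ℝ) := sum_le_sum fun a _ => hf _
    _ = K := by simp

/-- an average which is at most `c` has a term which is at most `c` -/
lemma exists_le_of_av_le (M : G → Om → Om) (K : ℕ) (hK : 0 < K) (u : ℕ → G) (f : Om → ℝ) (c : ℝ)
    (x : Om) (h : av M K u f x ≤ c) : ∃ a < K, f (M (u a) x) ≤ c := by
  by_contra hcon
  push Not at hcon
  have hK' : (0 : ℝ) < K := by exact_mod_cast hK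
  rw [av, div_le_iff₀ hK'] at h
  have h2 : ∑ a ∈ range K, c < ∑ a ∈ range K, f (M (u a) x) :=
    sum_lt_sum_of_nonempty (nonempty_range_iff.mpr hK.ne') fun a ha => hcon a (mem_range.mp ha)
  simp at h2
  linarith

variable [MeasurableSpace Om]

lemma av_meas (M : G → Om → Om) (hM : ∀ g, Measurable (M g)) (K : ℕ) (u : ℕ → G) (f : Om → ℝ)
    (hf : Measurable f) : Measurable (av M K u f) := by
  unfold av
  exact (Finset.measurable_sum _ fun a _ => hf.comp (hM _)).div_const _

lemma integrable_of_bdd (P : Measure Om) [IsProbabilityMeasure P] (f : Om → ℝ)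
    (hf : Measurable f) (h0 : ∀ x, 0 ≤ f x) (h1 : ∀ x, f x ≤ 1) : Integrable f P :=
  Integrable.of_bound hf.aestronglyMeasurable 1
    (Filter.Eventually.of_forall fun x => by rw [Real.norm_eq_abs, abs_of_nonneg (h0 x)]; exact h1 x)

variable [CommGroup G]

/-- adjointness -/
lemma av_adj (P : Measure Om) [IsProbabilityMeasure P] (M : G → Om → Om)
    (hM : ∀ g, MeasurePreserving (M g) P P) (hmul : ∀ g h x, M (g * h) x = M g (M h x))
    (hone : ∀ x, M 1 x = x) (K : ℕ) (u : ℕ → G) (W h : Om → ℝ)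
    (hW : Measurable W) (hW0 : ∀ x, 0 ≤ W x) (hW1 : ∀ x, W x ≤ 1)
    (hh : Measurable h) (hh0 : ∀ x, 0 ≤ h x) (hh1 : ∀ x, h x ≤ 1) :
    ∫ x, av M K u W x * h x ∂P = ∫ x, W x * av M K (fun a => (u a)⁻¹) h x ∂P := by
  have key : ∀ g : G, ∫ x, W (M g x) * h x ∂P = ∫ x, W x * h (M g⁻¹ x) ∂P := by
    intro g
    have h1 : ∫ y, W y * h (M g⁻¹ y) ∂(P.map (M g)) = ∫ x, W (M g x) * h (M g⁻¹ (M g x)) ∂P :=
      integral_map (hM g).measurable.aemeasurable
        ((hW.mul (hh.comp (hM g⁻¹).measurable)).aestronglyMeasurable)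
    rw [(hM g).map_eq] at h1
    rw [h1]
    refine integral_congr_ae (Filter.Eventually.of_forall fun x => ?_)
    simp only
    rw [← hmul, inv_mul_cancel, hone]
  have hi1 : ∀ g : G, Integrable (fun x => W (M g x) * h x) P := fun g =>
    integrable_of_bdd P _ ((hW.comp (hM g).measurable).mul hh)
      (fun x => mul_nonneg (hW0 _) (hh0 _)) (fun x => mul_le_one₀ (hW1 _) (hh0 _) (hh1 _))
  have hi2 : ∀ g : G, Integrable (fun x => W x * h (M g x)) P := fun g =>
    integrable_of_bdd P _ (hW.mul (hh.comp (hM g).measurable))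
      (fun x => mul_nonneg (hW0 _) (hh0 _)) (fun x => mul_le_one₀ (hW1 _) (hh0 _) (hh1 _))
  have e1 : (fun x => av M K u W x * h x) = fun x => (∑ a ∈ range K, W (M (u a) x) * h x) / K := by
    funext x; simp only [av]; rw [div_mul_eq_mul_div, sum_mul]
  have e2 : (fun x => W x * av M K (fun a => (u a)⁻¹) h x)
      = fun x => (∑ a ∈ range K, W x * h (M (u a)⁻¹ x)) / K := by
    funext x; simp only [av]; rw [mul_div_assoc', mul_sum]
  rw [e1, e2, integral_div, integral_div, integral_finsetSum _ (fun a _ => hi1 _),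
    integral_finsetSum _ (fun a _ => hi2 _)]
  congr 1
  exact sum_congr rfl fun a _ => key _

lemma av_comm (M : G → Om → Om) (hmul : ∀ g h x, M (g * h) x = M g (M h x))
    (K K' : ℕ) (u u' : ℕ → G) (f : Om → ℝ) :
    av M K u (av M K' u' f) = av M K' u' (av M K u f) := by
  funext x
  simp only [av]
  rw [← sum_div, ← sum_div, div_div, div_div, mul_comm (K' : ℝ), sum_comm]
  congr 1
  refine sum_congr rfl fun a _ => sum_congr rfl fun b _ => ?_
  rw [← hmul, ← hmul, mul_comm]

end Basic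

section Main
variable {Om : Type*} {G : Type*} [MeasurableSpace Om] [CommGroup G]
variable (P : Measure Om) [IsProbabilityMeasure P] (M : G → Om → Om)
  (hM : ∀ g, MeasurePreserving (M g) P P) (hmul : ∀ g h x, M (g * h) x = M g (M h x))
  (hone : ∀ x, M 1 x = x) (K : ℕ → ℕ) (hK : ∀ k, 0 < K k) (u : ℕ → ℕ → G)
  (f : Om → ℝ) (hf : Measurable f) (hf0 : ∀ x, 0 ≤ f x) (hf1 : ∀ x, f x ≤ 1)

include hf0 in
lemma Ts_nonneg (m : ℕ) : ∀ x, 0 ≤ Ts M K u m f x := by
  induction m with
  | zero => exact hf0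
  | succ m ih => exact fun x => av_nonneg M _ _ _ ih x

include hf1 hK in
lemma Ts_le_one (m : ℕ) : ∀ x, Ts M K u m f x ≤ 1 := by
  induction m with
  | zero => exact hf1
  | succ m ih => exact fun x => av_le_one M _ (hK m) _ _ ih x

include hM hf in
lemma Ts_meas (m : ℕ) : Measurable (Ts M K u m f) := by
  induction m with
  | zero => exact hf
  | succ m ih => exact av_meas M (fun g => (hM g).measurable) _ _ _ ih

lemma Wf_nonneg (μ : ℝ) (d : ℕ) : ∀ m x, 0 ≤ Wf M K u f μ d m x := by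
  induction d with
  | zero => intro m x; simp only [Wf]; split_ifs <;> norm_num
  | succ d ih =>
    intro m x; simp only [Wf]; split_ifs
    · norm_num
    · exact av_nonneg M _ _ _ (ih (m + 1)) x

include hK in
lemma Wf_le_one (μ : ℝ) (d : ℕ) : ∀ m x, Wf M K u f μ d m x ≤ 1 := by
  induction d with
  | zero => intro m x; simp only [Wf]; split_ifs <;> norm_num
  | succ d ih =>
    intro m x; simp only [Wf]; split_ifs
    · norm_num
    · exact av_le_one M _ (hK m) _ _ (ih (m + 1)) x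

include hM hf in
lemma Wf_meas (μ : ℝ) (d : ℕ) : ∀ m, Measurable (Wf M K u f μ d m) := by
  induction d with
  | zero =>
    intro m; simp only [Wf]
    exact Measurable.ite (measurableSet_lt measurable_const (Ts_meas P M hM K u f hf m))
      measurable_const measurable_const
  | succ d ih =>
    intro m; simp only [Wf]
    exact Measurable.ite (measurableSet_lt measurable_const (Ts_meas P M hM K u f hf m))
      measurable_const (av_meas M (fun g => (hM g).measurable) _ _ _ (ih (m + 1)))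

include hM hmul hone hK hf hf0 hf1 in
/-- (A) -/
lemma main_A (μ : ℝ) (d : ℕ) : ∀ m,
    μ * ∫ x, Wf M K u f μ d m x ∂P ≤ ∫ x, Wf M K u f μ d m x * Ts M K u m f x ∂P := by
  have iW : ∀ d m, Integrable (Wf M K u f μ d m) P := fun d m =>
    integrable_of_bdd P _ (Wf_meas P M hM K u f hf μ d m) (Wf_nonneg M K u f μ d m)
      (Wf_le_one M K hK u f μ d m)
  have iWT : ∀ d m m', Integrable (fun x => Wf M K u f μ d m x * Ts M K u m' f x) P :=
    fun d m m' => integrable_of_bdd P _
      ((Wf_meas P M hM K u f hf μ d m).mul (Ts_meas P M hM K u f hf m'))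
      (fun x => mul_nonneg (Wf_nonneg M K u f μ d m x) (Ts_nonneg M K u f hf0 m' x))
      (fun x => mul_le_one₀ (Wf_le_one M K hK u f μ d m x) (Ts_nonneg M K u f hf0 m' x)
        (Ts_le_one M K hK u f hf1 m' x))
  induction d with
  | zero =>
    intro m
    rw [← integral_const_mul]
    refine integral_mono ((iW 0 m).const_mul μ) (iWT 0 m m) fun x => ?_
    simp only [Wf]
    split_ifs with h
    · linarith
    · simp
  | succ d ih =>
    intro m
    set A : Om → ℝ := av M (K m) (u m) (Wf M K u f μ d (m + 1)) with hA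
    have hWm := Wf_meas P M hM K u f hf μ d (m + 1)
    have hW0 := Wf_nonneg M K u f μ d (m + 1)
    have hW1 := Wf_le_one M K hK u f μ d (m + 1)
    have hAm : Measurable A := av_meas M (fun g => (hM g).measurable) _ _ _ hWm
    have hA0 : ∀ x, 0 ≤ A x := av_nonneg M _ _ _ hW0
    have hA1 : ∀ x, A x ≤ 1 := av_le_one M _ (hK m) _ _ hW1
    have hTm := Ts_meas P M hM K u f hf m
    have hT0 := Ts_nonneg M K u f hf0 m
    have hT1 := Ts_le_one M K hK u f hf1 m
    have iA : Integrable A P := integrable_of_bdd P _ hAm hA0 hA1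
    have iAT : Integrable (fun x => A x * Ts M K u m f x) P :=
      integrable_of_bdd P _ (hAm.mul hTm) (fun x => mul_nonneg (hA0 x) (hT0 x))
        (fun x => mul_le_one₀ (hA1 x) (hT0 x) (hT1 x))
    have e1 : ∫ x, A x * Ts M K u m f x ∂P
        = ∫ x, Wf M K u f μ d (m + 1) x * Ts M K u (m + 1) f x ∂P :=
      av_adj P M hM hmul hone (K m) (u m) _ _ hWm hW0 hW1 hTm hT0 hT1
    have e2 : ∫ x, A x ∂P = ∫ x, Wf M K u f μ d (m + 1) x ∂P := by
      have h := av_adj P M hM hmul hone (K m) (u m) (Wf M K u f μ d (m + 1)) (fun _ => 1) hWm hW0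
        hW1 measurable_const (fun _ => zero_le_one) (fun _ => le_rfl)
      have hc : ∀ x, av M (K m) (fun a => (u m a)⁻¹) (fun _ => (1 : ℝ)) x = 1 := by
        intro x
        have hk : (K m : ℝ) ≠ 0 := by
          have := hK m
          positivity
        simp only [av, sum_const, card_range, nsmul_eq_mul, mul_one]
        exact div_self hk
      simp only [mul_one, hc] at h
      exact h
    have key : ∀ x, 0 ≤ (Wf M K u f μ (d + 1) m x - A x) * (Ts M K u m f x - μ) := by
      intro x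
      simp only [Wf]
      split_ifs with h
      · exact mul_nonneg (by linarith [hA1 x]) (by linarith)
      · rw [← hA]; simp
    have hi : 0 ≤ ∫ x, (Wf M K u f μ (d + 1) m x - A x) * (Ts M K u m f x - μ) ∂P :=
      integral_nonneg_of_ae (Filter.Eventually.of_forall key)
    have e3 : ∫ x, (Wf M K u f μ (d + 1) m x - A x) * (Ts M K u m f x - μ) ∂P
        = (∫ x, Wf M K u f μ (d + 1) m x * Ts M K u m f x ∂P - μ * ∫ x, Wf M K u f μ (d + 1) m x ∂P)
          - (∫ x, A x * Ts M K u m f x ∂P - μ * ∫ x, A x ∂P) := by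
      rw [← integral_const_mul, ← integral_const_mul,
        ← integral_sub (iWT (d + 1) m m) ((iW (d + 1) m).const_mul μ),
        ← integral_sub iAT (iA.const_mul μ), ← integral_sub]
      · refine integral_congr_ae (Filter.Eventually.of_forall fun x => ?_)
        simp only
        ring
      · exact (iWT (d + 1) m m).sub ((iW (d + 1) m).const_mul μ)
      · exact iAT.sub (iA.const_mul μ)
    rw [e3, e1, e2] at hi
    have := ih (m + 1)
    linarith

include hK hf0 hf1 in
lemma Rr_le_one (g : Om → ℝ) (hg : ∀ x, g x ≤ 1) (e : ℕ) : ∀ m x, Rr M K u e m g x ≤ 1 := by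
  induction e with
  | zero => exact fun _ => hg
  | succ e ih => exact fun m x => av_le_one M _ (hK m) _ _ (ih (m + 1)) x

include hK hf0 hf1 in
/-- (B) -/
lemma main_B (μ : ℝ) (hμ : 0 ≤ μ) (e : ℕ) : ∀ d m, e ≤ d → ∀ x,
    Rr M K u e m (Ts M K u (m + e) f) x ≤ μ + Wf M K u f μ d m x := by
  induction e with
  | zero =>
    intro d m _ x
    simp only [Rr, add_zero]
    by_cases h : μ < Ts M K u m f x
    · have hw : Wf M K u f μ d m x = 1 := by
        cases d <;> simp only [Wf, if_pos h]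
      rw [hw]
      linarith [Ts_le_one M K hK u f hf1 m x]
    · linarith [Wf_nonneg M K u f μ d m x]
  | succ e ih =>
    intro d m hd x
    obtain ⟨d, rfl⟩ : ∃ d', d = d' + 1 := ⟨d - 1, by omega⟩
    by_cases h : μ < Ts M K u m f x
    · have hw : Wf M K u f μ (d + 1) m x = 1 := by simp only [Wf, if_pos h]
      rw [hw]
      linarith [Rr_le_one M K hK u f hf0 hf1 _ (Ts_le_one M K hK u f hf1 (m + (e + 1))) (e + 1) m x]
    · have hw : Wf M K u f μ (d + 1) m x = av M (K m) (u m) (Wf M K u f μ d (m + 1)) x := by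
        simp only [Wf, if_neg h]
      rw [hw, ← av_const_add M (K m) (hK m)]
      simp only [Rr]
      have h2 : m + (e + 1) = m + 1 + e := by omega
      rw [h2]
      exact av_mono M _ _ _ _ (ih d (m + 1) (by omega)) x

include hM hmul hone hK hf hf0 hf1 in
/-- the maximal inequality -/
theorem maximal (μ : ℝ) (hμ : 0 < μ) :
    P.real {x | ∃ n, 2 * μ < Rr M K u n 0 (Ts M K u n f) x} ≤ (∫ x, f x ∂P) / μ ^ 2 := by
  have hc : 0 ≤ (∫ x, f x ∂P) / μ ^ 2 := div_nonneg (integral_nonneg hf0) (by positivity)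
  set S : ℕ → Set Om := fun N => {x | ∃ n ≤ N, 2 * μ < Rr M K u n 0 (Ts M K u n f) x} with hS
  have hU : {x | ∃ n, 2 * μ < Rr M K u n 0 (Ts M K u n f) x} = ⋃ N, S N := by
    ext x
    simp only [Set.mem_ofPred_eq, Set.mem_iUnion, hS]
    constructor
    · rintro ⟨n, hn⟩; exact ⟨n, n, le_rfl, hn⟩
    · rintro ⟨N, n, _, hn⟩; exact ⟨n, hn⟩
  have hmono : Monotone S := by
    intro N N' hN x hx
    obtain ⟨n, hn, h⟩ := hx
    exact ⟨n, hn.trans hN, h⟩
  have hb : ∀ N, P (S N) ≤ ENNReal.ofReal ((∫ x, f x ∂P) / μ ^ 2) := by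
    intro N
    have hW0 := Wf_nonneg M K u f μ N 0
    have hW1 := Wf_le_one M K hK u f μ N 0
    have hWm := Wf_meas P M hM K u f hf μ N 0
    have iW : Integrable (Wf M K u f μ N 0) P := integrable_of_bdd P _ hWm hW0 hW1
    have hsub : S N ⊆ {x | μ ≤ Wf M K u f μ N 0 x} := by
      rintro x ⟨n, hn, h⟩
      have hB := main_B M K hK u f hf0 hf1 μ hμ.le n N 0 hn x
      rw [zero_add] at hB
      simp only [Set.mem_ofPred_eq]
      linarith
    have hA := main_A P M hM hmul hone K hK u f hf hf0 hf1 μ N 0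
    have hA2 : ∫ x, Wf M K u f μ N 0 x * Ts M K u 0 f x ∂P ≤ ∫ x, f x ∂P := by
      refine integral_mono ?_ (integrable_of_bdd P f hf hf0 hf1) fun x => ?_
      · exact integrable_of_bdd P _ (hWm.mul hf) (fun x => mul_nonneg (hW0 x) (hf0 x))
          (fun x => mul_le_one₀ (hW1 x) (hf0 x) (hf1 x))
      · exact mul_le_of_le_one_left (hf0 x) (hW1 x)
    have hmk := mul_meas_ge_le_integral_of_nonneg (μ := P)
      (Filter.Eventually.of_forall hW0) iW μ
    have h3 : P.real {x | μ ≤ Wf M K u f μ N 0 x} ≤ (∫ x, f x ∂P) / μ ^ 2 := by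
      rw [le_div_iff₀ (by positivity)]
      have : μ * P.real {x | μ ≤ Wf M K u f μ N 0 x} * μ ≤ (∫ x, Wf M K u f μ N 0 x ∂P) * μ :=
        mul_le_mul_of_nonneg_right hmk hμ.le
      nlinarith
    calc P (S N) ≤ P {x | μ ≤ Wf M K u f μ N 0 x} := measure_mono hsub
      _ = ENNReal.ofReal (P.real {x | μ ≤ Wf M K u f μ N 0 x}) := by
          rw [Measure.real, ENNReal.ofReal_toReal (measure_ne_top _ _)]
      _ ≤ _ := ENNReal.ofReal_le_ofReal h3
  rw [hU, Measure.real, hmono.measure_iUnion]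
  exact ENNReal.toReal_le_of_le_ofReal hc (iSup_le hb)

lemma Rr_succ_right (g : Om → ℝ) (e : ℕ) : ∀ m,
    Rr M K u (e + 1) m g = Rr M K u e m (av M (K (m + e)) (u (m + e)) g) := by
  induction e with
  | zero => intro m; simp only [Rr, add_zero]
  | succ e ih =>
    intro m
    have h1 : Rr M K u (e + 1 + 1) m g = av M (K m) (u m) (Rr M K u (e + 1) (m + 1) g) := rfl
    have h2 : m + 1 + e = m + (e + 1) := by omega
    rw [h1, ih (m + 1), h2]
    rfl

include hmul in
lemma Ts_comm (K' : ℕ) (u' : ℕ → G) (m : ℕ) :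
    Ts M K u m (av M K' u' f) = av M K' u' (Ts M K u m f) := by
  induction m with
  | zero => rfl
  | succ m ih =>
    simp only [Ts]
    rw [ih, av_comm M hmul]

end Main

section Sel
variable {Om : Type*} {G : Type*} [MeasurableSpace Om] [CommGroup G] (M : G → Om → Om)
  (hmul : ∀ g h x, M (g * h) x = M g (M h x))
  (hone : ∀ x, M 1 x = x) (u : ℕ → G) (X : ℕ → ℕ) (hX : ∀ n, 0 < X n)

include hmul hone hX in
lemma Rr_sel (g : Om → ℝ) (c : ℝ) (n : ℕ) : ∀ (g : Om → ℝ) (x : Om),
    Rr M X (fun _ => u) n 0 g x ≤ c →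
    ∃ a : ℕ → ℕ, (∀ k, a k < X k) ∧ g (M (∏ k ∈ range n, u (a k)) x) ≤ c := by
  induction n with
  | zero =>
    intro g x h
    have h' : g x ≤ c := h
    exact ⟨fun _ => 0, fun k => hX k, by simpa [hone] using h'⟩
  | succ n ih =>
    intro g x h
    rw [Rr_succ_right, zero_add] at h
    obtain ⟨a, ha, h2⟩ := ih _ x h
    obtain ⟨b, hb, h3⟩ := exists_le_of_av_le M (X n) (hX n) u g c _ h2
    refine ⟨Function.update a n b, ?_, ?_⟩
    · intro k
      by_cases hk : k = n
      · subst hk; simpa using hb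
      · simpa [Function.update_of_ne hk] using ha k
    · rw [prod_range_succ, mul_comm, hmul]
      have e1 : ∏ k ∈ range n, u (Function.update a n b k) = ∏ k ∈ range n, u (a k) :=
        prod_congr rfl fun k hk => by
          rw [Function.update_of_ne (ne_of_lt (mem_range.mp hk))]
      rw [e1, Function.update_self]
      exact h3

include hmul hone hX in
lemma Ts_sel (c : ℝ) (n : ℕ) : ∀ (f : Om → ℝ) (x : Om),
    Ts M X (fun _ => u) n f x ≤ c →
    ∃ a : ℕ → ℕ, (∀ k, a k < X k) ∧ f (M (∏ k ∈ range n, u (a k))⁻¹ x) ≤ c := by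
  induction n with
  | zero =>
    intro g x h
    have h' : g x ≤ c := h
    exact ⟨fun _ => 0, fun k => hX k, by simpa [hone] using h'⟩
  | succ n ih =>
    intro f x h
    obtain ⟨b, hb, h3⟩ := exists_le_of_av_le M (X n) (hX n) (fun a => (u a)⁻¹) _ c _ h
    obtain ⟨a, ha, h2⟩ := ih _ _ h3
    refine ⟨Function.update a n b, ?_, ?_⟩
    · intro k
      by_cases hk : k = n
      · subst hk; simpa using hb
      · simpa [Function.update_of_ne hk] using ha k
    · have e1 : ∏ k ∈ range n, u (Function.update a n b k) = ∏ k ∈ range n, u (a k) :=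
        prod_congr rfl fun k hk => by
          rw [Function.update_of_ne (ne_of_lt (mem_range.mp hk))]
      rw [prod_range_succ, e1, Function.update_self, mul_inv, hmul]
      exact h2

end Sel

section Final
variable {Om : Type*} {G : Type*} [MeasurableSpace Om] [CommGroup G]

open Classical in
/-- (R2) -/
theorem rota_two (P : Measure Om) [IsProbabilityMeasure P] (M : G → Om → Om)
    (hM : ∀ g, MeasurePreserving (M g) P P) (hmul : ∀ g h x, M (g * h) x = M g (M h x))
    (hone : ∀ x, M 1 x = x) (u : ℕ → G) (X : ℕ → ℕ) (hX : ∀ n, 0 < X n)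
    (B : Set Om) (hB : MeasurableSet B) :
    P.real {x | ¬ ∀ n, ∃ a a' : ℕ → ℕ, (∀ k, a k < X k) ∧ (∀ k, a' k < X k) ∧
      2 * ((range (X n)).filter (fun b =>
        M (u b * ((∏ k ∈ range n, u (a k)) * (∏ k ∈ range (n + 1), u (a' k))⁻¹)) x ∈ B)).card
        ≤ X n} ≤ 16 * P.real B := by
  set f : Om → ℝ := B.indicator (fun _ => 1) with hf
  have hfm : Measurable f := measurable_const.indicator hB
  have hf0 : ∀ x, 0 ≤ f x := fun x => Set.indicator_nonneg (fun _ _ => zero_le_one) x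
  have hf1 : ∀ x, f x ≤ 1 := fun x => by
    rw [hf]; by_cases h : x ∈ B <;> simp [h]
  have hmax := maximal P M hM hmul hone X hX (fun _ => u) f hfm hf0 hf1 (1 / 4) (by norm_num)
  have hint : ∫ x, f x ∂P = P.real B := by
    rw [hf, integral_indicator hB]; simp
  rw [hint] at hmax
  have e16 : P.real B / (1 / 4 : ℝ) ^ 2 = 16 * P.real B := by ring
  rw [e16] at hmax
  refine le_trans (measureReal_mono ?_) hmax
  intro x hx
  simp only [Set.mem_ofPred_eq] at hx ⊢
  by_contra hcon
  push Not at hcon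
  refine hx fun n => ?_
  have h1 := hcon (n + 1)
  rw [Rr_succ_right, zero_add, ← Ts_comm M hmul] at h1
  obtain ⟨a, ha, h2⟩ := Rr_sel M hmul hone u X hX f _ n _ x h1
  obtain ⟨a', ha', h3⟩ := Ts_sel M hmul hone u X hX _ (n + 1) _ _ h2
  refine ⟨a, a', ha, ha', ?_⟩
  have hXn : (0 : ℝ) < X n := by exact_mod_cast hX n
  simp only [av] at h3
  rw [div_le_iff₀ hXn] at h3
  have h4 : ∑ b ∈ range (X n), f (M (u b) (M (∏ k ∈ range (n + 1), u (a' k))⁻¹
        (M (∏ k ∈ range n, u (a k)) x)))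
      = (((range (X n)).filter (fun b =>
        M (u b * ((∏ k ∈ range n, u (a k)) * (∏ k ∈ range (n + 1), u (a' k))⁻¹)) x ∈ B)).card : ℝ) := by
    rw [card_filter, Nat.cast_sum]
    refine sum_congr rfl fun b _ => ?_
    have e : M (u b * ((∏ k ∈ range n, u (a k)) * (∏ k ∈ range (n + 1), u (a' k))⁻¹)) x
        = M (u b) (M (∏ k ∈ range (n + 1), u (a' k))⁻¹ (M (∏ k ∈ range n, u (a k)) x)) := by
      rw [hmul, mul_comm (∏ k ∈ range n, u (a k)), hmul]
    rw [← e, hf]
    by_cases hb : M (u b * ((∏ k ∈ range n, u (a k)) * (∏ k ∈ range (n + 1), u (a' k))⁻¹)) x ∈ B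
    · simp [hb]
    · simp [hb]
  rw [h4] at h3
  have h5 : (2 * ((range (X n)).filter (fun b =>
        M (u b * ((∏ k ∈ range n, u (a k)) * (∏ k ∈ range (n + 1), u (a' k))⁻¹)) x ∈ B)).card : ℝ)
        ≤ X n := by linarith
  exact_mod_cast h5

lemma Rr_pow (M : G → Om → Om) (hmul : ∀ g h x, M (g * h) x = M g (M h x))
    (hone : ∀ x, M 1 x = x) (κ : G) (n : ℕ) : ∀ (g : Om → ℝ) (x : Om),
    Rr M (fun _ => 2) (fun k a => κ ^ (2 ^ k * a)) n 0 g x
      = (∑ j ∈ range (2 ^ n), g (M (κ ^ j) x)) / 2 ^ n := by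
  induction n with
  | zero => intro g x; simp [Rr, hone]
  | succ n ih =>
    intro g x
    rw [Rr_succ_right, zero_add, ih]
    simp only [av, sum_range_succ, range_zero, sum_empty, mul_zero, pow_zero, zero_add, mul_one,
      hone]
    rw [pow_succ 2 n, mul_two, sum_range_add, ← sum_div, sum_add_distrib]
    have : ∀ j, M (κ ^ (2 ^ n)) (M (κ ^ j) x) = M (κ ^ (2 ^ n + j)) x := fun j => by
      rw [← hmul, ← pow_add]
    simp only [this]
    push_cast
    rw [div_div]
    congr 1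
    ring

lemma Ts_pow (M : G → Om → Om) (hmul : ∀ g h x, M (g * h) x = M g (M h x))
    (hone : ∀ x, M 1 x = x) (κ : G) (f : Om → ℝ) (n : ℕ) : ∀ (x : Om),
    Ts M (fun _ => 2) (fun k a => κ ^ (2 ^ k * a)) n f x
      = (∑ j ∈ range (2 ^ n), f (M (κ ^ j)⁻¹ x)) / 2 ^ n := by
  induction n with
  | zero => intro x; simp [Ts, hone]
  | succ n ih =>
    intro x
    simp only [Ts, av, sum_range_succ, range_zero, sum_empty, mul_zero, pow_zero, zero_add,
      mul_one, inv_one, hone]
    rw [ih, ih, pow_succ 2 n, mul_two, sum_range_add]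
    have : ∀ j, M (κ ^ j)⁻¹ (M (κ ^ (2 ^ n))⁻¹ x) = M (κ ^ (2 ^ n + j))⁻¹ x := fun j => by
      rw [← hmul, pow_add, mul_inv, mul_comm]
    simp only [this]
    push_cast
    rw [← add_div, div_div]
    congr 1

open Classical in
/-- (R1) -/
theorem rota_one (P : Measure Om) [IsProbabilityMeasure P] (M : G → Om → Om)
    (hM : ∀ g, MeasurePreserving (M g) P P) (hmul : ∀ g h x, M (g * h) x = M g (M h x))
    (hone : ∀ x, M 1 x = x) (κ : G) (B : Set Om) (hB : MeasurableSet B) (lam : ℝ)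
    (hlam : 0 < lam) :
    P.real {x | ∃ n : ℕ, lam * 2 ^ n < ((range (2 ^ n)).filter (fun j => M (κ ^ j) x ∈ B)).card}
      ≤ 64 * P.real B / lam ^ 2 := by
  set f : Om → ℝ := B.indicator (fun _ => 1) with hf
  have hfm : Measurable f := measurable_const.indicator hB
  have hf0 : ∀ x, 0 ≤ f x := fun x => Set.indicator_nonneg (fun _ _ => zero_le_one) x
  have hf1 : ∀ x, f x ≤ 1 := fun x => by
    rw [hf]; by_cases h : x ∈ B <;> simp [h]
  have hmax := maximal P M hM hmul hone (fun _ => 2) (fun _ => two_pos)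
    (fun k a => κ ^ (2 ^ k * a)) f hfm hf0 hf1 (lam / 8) (by positivity)
  have hint : ∫ x, f x ∂P = P.real B := by
    rw [hf, integral_indicator hB]; simp
  rw [hint] at hmax
  have e64 : P.real B / (lam / 8) ^ 2 = 64 * P.real B / lam ^ 2 := by
    field_simp; ring
  rw [e64] at hmax
  refine le_trans (measureReal_mono ?_) hmax
  rintro x ⟨n, hn⟩
  refine ⟨n + 1, ?_⟩
  rw [Rr_pow M hmul hone κ (n + 1)]
  simp only [Ts_pow M hmul hone κ f (n + 1)]
  rw [← sum_div, div_div]
  have hcard : ∑ j ∈ range (2 ^ n), f (M (κ ^ j) x)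
      = (((range (2 ^ n)).filter (fun j => M (κ ^ j) x ∈ B)).card : ℝ) := by
    rw [card_filter, Nat.cast_sum]
    refine sum_congr rfl fun b _ => ?_
    rw [hf]
    by_cases hb : M (κ ^ b) x ∈ B
    · simp [hb]
    · simp [hb]
  have hlow : (2 ^ n : ℝ) * ∑ j ∈ range (2 ^ n), f (M (κ ^ j) x)
      ≤ ∑ i ∈ range (2 ^ (n + 1)), ∑ j ∈ range (2 ^ (n + 1)), f (M (κ ^ j)⁻¹ (M (κ ^ i) x)) := by
    rw [sum_comm]
    calc (2 ^ n : ℝ) * ∑ j ∈ range (2 ^ n), f (M (κ ^ j) x)
        = ∑ j ∈ range (2 ^ n), ∑ i ∈ range (2 ^ n), f (M (κ ^ i) x) := by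
          rw [sum_const, card_range, nsmul_eq_mul]; push_cast; ring
      _ = ∑ j ∈ range (2 ^ n), ∑ i ∈ Ico j (j + 2 ^ n), f (M (κ ^ j)⁻¹ (M (κ ^ i) x)) := by
          refine sum_congr rfl fun j _ => ?_
          rw [sum_Ico_eq_sum_range]
          rw [Nat.add_sub_cancel_left]
          refine sum_congr rfl fun i _ => ?_
          rw [← hmul, pow_add, inv_mul_cancel_left]
      _ ≤ ∑ j ∈ range (2 ^ n), ∑ i ∈ range (2 ^ (n + 1)), f (M (κ ^ j)⁻¹ (M (κ ^ i) x)) := by
          refine sum_le_sum fun j hj => sum_le_sum_of_subset_of_nonneg ?_ fun i _ _ => hf0 _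
          intro i hi
          rw [mem_Ico] at hi
          rw [mem_range] at hj ⊢
          have : 2 ^ (n + 1) = 2 ^ n + 2 ^ n := by ring
          omega
      _ ≤ _ := by
          refine sum_le_sum_of_subset_of_nonneg ?_ fun i _ _ => sum_nonneg fun j _ => hf0 _
          intro i hi
          rw [mem_range] at hi ⊢
          have : 2 ^ (n + 1) = 2 ^ n + 2 ^ n := by ring
          omega
  rw [hcard] at hlow
  rw [lt_div_iff₀ (by positivity)]
  have h2n : (0 : ℝ) < 2 ^ n := by positivity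
  calc 2 * (lam / 8) * (2 ^ (n + 1) * 2 ^ (n + 1)) = 2 ^ n * (lam * 2 ^ n) := by ring
    _ < 2 ^ n * (((range (2 ^ n)).filter (fun j => M (κ ^ j) x ∈ B)).card : ℝ) :=
        mul_lt_mul_of_pos_left hn h2n
    _ ≤ _ := hlow

end Final

end Pool.Agent.Helper37.RG
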