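import Pool.Agent.Helper1.RG.Defs
import Pool.Agent.Helper37.RG.ROTA

open MeasureTheory Finset Complex
open scoped ComplexConjugate

namespace Pool.Agent.Helper37.RG

open Pool.Agent.Helper1.RG

lemma one_mem_QU : (1 : ℂ) ∈ QU := ⟨⟨1, 0, by simp⟩, by simp⟩

lemma mul_mem_QU {u v : ℂ} (hu : u ∈ QU) (hv : v ∈ QU) : u * v ∈ QU := by
  obtain ⟨⟨a, b, rfl⟩, h1⟩ := hu
  obtain ⟨⟨c, d, rfl⟩, h2⟩ := hv
  refine ⟨⟨a * c - b * d, a * d + b * c, ?_⟩, by rw [norm_mul, h1, h2, mul_one]⟩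
  push_cast
  linear_combination (b * d : ℂ) * I_sq

lemma inv_mem_QU {u : ℂ} (hu : u ∈ QU) : u⁻¹ ∈ QU := by
  obtain ⟨⟨a, b, rfl⟩, h1⟩ := hu
  refine ⟨⟨a, -b, ?_⟩, by rw [norm_inv, h1, inv_one]⟩
  have hne : ((a : ℂ) + b * I) ≠ 0 := by
    intro h; rw [h] at h1; simp at h1
  have h2 : ((a : ℂ) + b * I) * conj ((a : ℂ) + b * I) = 1 := by
    rw [mul_conj, normSq_eq_norm_sq, h1]; simp
  have h3 : conj ((a : ℂ) + b * I) = a + (-b : ℚ) * I := by
    simp
  rw [← h3]
  exact (eq_inv_of_mul_eq_one_right h2).symm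

/-- the group of rational units -/
def QG : Subgroup ℂˣ where
  carrier := {u | (u : ℂ) ∈ QU}
  one_mem' := one_mem_QU
  mul_mem' := fun {a b} ha hb => by
    simp only [Set.mem_ofPred_eq, Units.val_mul] at *
    exact mul_mem_QU ha hb
  inv_mem' := fun {a} ha => by
    simp only [Set.mem_ofPred_eq, Units.val_inv_eq_inv_val] at *
    exact inv_mem_QU ha

/-- the action -/
noncomputable def Mq (g : QG) (χ : Om) : Om := χ.mulShift ((g : ℂˣ) : ℂ)

lemma Mq_mul (g h : QG) (χ : Om) : Mq (g * h) χ = Mq g (Mq h χ) := by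
  ext z
  simp only [Mq, AddChar.mulShift_apply, Subgroup.coe_mul, Units.val_mul]
  congr 2
  ring

lemma Mq_one (χ : Om) : Mq 1 χ = χ := by
  ext z
  simp [Mq]

lemma meas_shift (u : ℂ) : Measurable (fun χ : Om => χ.mulShift u) := by
  have h : Measurable (fun (χ : Om) (x : (Set.univ : Set ℂ)) => ev (x : ℂ) χ) :=
    comap_measurable _
  rw [measurable_iff_comap_le]
  unfold instMeasOm
  unfold sig
  rw [MeasurableSpace.comap_comp]
  rw [← measurable_iff_comap_le]
  refine measurable_pi_iff.mpr fun x => ?_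
  exact (measurable_pi_iff.mp h) ⟨u * x, trivial⟩

lemma Mq_mp (P : Measure Om) (hP : Inv P) (g : QG) : MeasurePreserving (Mq g) P P :=
  ⟨meas_shift _, hP _ g.2⟩

lemma Rr_closed {Om' G : Type*} [MeasurableSpace Om'] [CommGroup G] (M : G → Om' → Om')
    (hmul : ∀ g h x, M (g * h) x = M g (M h x)) (hone : ∀ x, M 1 x = x)
    (K : ℕ → ℕ) (u : ℕ → ℕ → G) (n : ℕ) : ∀ (g : Om' → ℝ) (x : Om'),
    Rr M K u n 0 g x = (∑ a : (i : Fin n) → Fin (K i), g (M (∏ i : Fin n, u i (a i)) x)) /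
      (∏ i ∈ range n, (K i : ℝ)) := by
  induction n with
  | zero => intro g x; simp [Rr, hone]
  | succ n ih =>
    intro g x
    rw [Rr_succ_right, zero_add, ih]
    simp only [av]
    rw [← sum_div, div_div, prod_range_succ, mul_comm (K n : ℝ)]
    congr 1
    rw [← (Fin.snocEquiv (fun i : Fin (n + 1) => Fin (K i))).sum_comp, Fintype.sum_prod_type_right]
    refine sum_congr rfl fun a _ => ?_
    rw [sum_range]
    refine sum_congr rfl fun b _ => ?_
    rw [Fin.prod_univ_castSucc]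
    simp only [Fin.snocEquiv, Equiv.coe_fn_mk, Fin.snoc_castSucc, Fin.snoc_last]
    rw [mul_comm, hmul]
    rfl

lemma Ts_closed {Om' G : Type*} [MeasurableSpace Om'] [CommGroup G] (M : G → Om' → Om')
    (hmul : ∀ g h x, M (g * h) x = M g (M h x)) (hone : ∀ x, M 1 x = x)
    (K : ℕ → ℕ) (u : ℕ → ℕ → G) (f : Om' → ℝ) (n : ℕ) : ∀ (x : Om'),
    Ts M K u n f x = (∑ a : (i : Fin n) → Fin (K i), f (M (∏ i : Fin n, u i (a i))⁻¹ x)) /
      (∏ i ∈ range n, (K i : ℝ)) := by
  induction n with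
  | zero => intro x; simp [Ts, hone]
  | succ n ih =>
    intro x
    simp only [Ts, av]
    simp only [ih]
    rw [← sum_div, div_div, prod_range_succ]
    congr 1
    rw [← (Fin.snocEquiv (fun i : Fin (n + 1) => Fin (K i))).sum_comp, Fintype.sum_prod_type,
      sum_range]
    refine sum_congr rfl fun b _ => ?_
    refine sum_congr rfl fun a _ => ?_
    rw [Fin.prod_univ_castSucc]
    simp only [Fin.snocEquiv, Equiv.coe_fn_mk, Fin.snoc_castSucc, Fin.snoc_last]
    rw [mul_inv, hmul]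
    rfl

/-- `p ≤ y ^ 2` and `p ≤ 1` give `p ≤ y` -/
lemma le_of_le_sq {p y : ℝ} (hy : 0 ≤ y) (h1 : p ≤ 1) (h2 : p ≤ y ^ 2) : p ≤ y := by
  by_cases h : 1 ≤ y
  · linarith
  · push Not at h
    nlinarith

theorem st_MAX : ST_MAX := by
  intro P hP hInv N u hN hu f hf hf0 hf1 lam hlam
  classical
  set u' : ℕ → ℕ → QG := fun n a => if h : a < N n then
    ⟨Units.mk0 (u n a) (by
      intro h0
      have := (hu n a h).2
      rw [h0] at this; simp at this), hu n a h⟩ else 1 with hu'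
  have hmax := maximal P Mq (Mq_mp P hInv) Mq_mul Mq_one N (fun k => hN k) u' f hf hf0 hf1
    (lam / 2) (by positivity)
  have hcoe : ∀ (n : ℕ) (a : (i : Fin n) → Fin (N i)),
      (((∏ i : Fin n, u' i (a i) : QG) : ℂˣ) : ℂ) = ∏ i : Fin n, u i (a i) := by
    intro n a
    rw [Subgroup.val_finsetProd, Units.coe_prod]
    refine prod_congr rfl fun i _ => ?_
    simp only [hu']
    rw [dif_pos (a i).2]
    rfl
  have hform : ∀ n χ, Rr Mq N u' n 0 (Ts Mq N u' n f) χ = Av N u f n χ := by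
    intro n χ
    rw [Rr_closed Mq Mq_mul Mq_one]
    simp only [Ts_closed Mq Mq_mul Mq_one]
    rw [← sum_div, div_div, Av, sq]
    congr 1
    refine sum_congr rfl fun a _ => sum_congr rfl fun a' _ => ?_
    congr 1
    rw [← Mq_mul]
    simp only [Mq]
    congr 1
    rw [Subgroup.coe_mul, Units.val_mul, Subgroup.coe_inv, Units.val_inv_eq_inv_val, hcoe, hcoe,
      mul_comm, div_eq_mul_inv]
  simp only [hform] at hmax
  have h2 : 2 * (lam / 2) = lam := by ring
  rw [h2] at hmax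
  have hI : 0 ≤ ∫ χ, f χ ∂P := integral_nonneg_of_ae (Filter.Eventually.of_forall hf0)
  refine le_of_le_sq (by positivity) measureReal_le_one ?_
  refine hmax.trans (le_of_eq ?_)
  rw [div_pow, div_pow, mul_pow, Real.sq_sqrt hI]
  field_simp

end Pool.Agent.Helper37.RG
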